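import Pool.Agent.V11276.QC

/-!
# MP_53b42b_nt: base-4 valuations of colored 4-ary partition counts, `m ≡ 6 mod 8`

Q1 has a positive answer: for every `m ≡ 6 mod 8` the 2-adic (hence 4-adic) valuations of
`S_{4,m}(n)` are unbounded in `n`.
-/

namespace Pool.Agent.Results.MP_53b42b_nt.Unbounded

open PowerSeries

/-- The infinite product `∏_{i ≥ 0} (1 - x^(k^i))` over `ℤ`: its coefficient of `x^n` is read off
from the partial product over `i ≤ n` (the remaining factors are `≡ 1` modulo `x^(n+1)`). -/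
noncomputable def F (k : ℕ) : ℤ⟦X⟧ :=
  PowerSeries.mk fun n => coeff n (∏ i ∈ Finset.range (n + 1), (1 - X ^ (k ^ i)) : ℤ⟦X⟧)

/-- `S_{k,m}(n)`: the coefficient of `x^n` in the inverse of
`(1 - x)^m * (∏_{i ≥ 0} (1 - x^(k^i)))^((k-1)m)`. -/
noncomputable def S (k m n : ℕ) : ℤ :=
  coeff n (invOfUnit ((1 - X) ^ m * F k ^ ((k - 1) * m)) 1)

/-- For every `m ≡ 6 mod 8` and every `B` there is `n` with `4^B ∣ S_{4,m}(n)`. -/
theorem result : ∀ m : ℕ, m % 8 = 6 → ∀ B : ℕ, ∃ n : ℕ, (4 : ℤ) ^ B ∣ S 4 m n := by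
  intro m hm B
  obtain ⟨n, hn⟩ := Pool.Agent.V11276.QA.unbounded (m / 2) (by omega) B
  have e : 2 * (m / 2) = m := by omega
  rw [e] at hn
  exact ⟨n, hn⟩

end Pool.Agent.Results.MP_53b42b_nt.Unbounded
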